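import Pool.Agent.Helper59.AN.Goals

/-! Packet CSUP of MP_4137ca_lc: suprema are countable suprema under the chain condition. -/

namespace AN.PkCSUP

open Pool.Agent.Helper97.Ku NU BSet

theorem csup : G_CSUP := by
  intro L _ hL ι b
  classical
  obtain ⟨r, hwo⟩ : ∃ r : ι → ι → Prop, IsWellOrder ι r :=
    ⟨WellOrderingRel, WellOrderingRel.isWellOrder⟩
  have hwf : WellFounded r := hwo.wf
  let d : ι → L := fun i => b i ⊓ (⨆ j : {j // r j i}, b j.1)ᶜ
  have hdle : ∀ i, d i ≤ b i := fun i => inf_le_left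
  have hdis : ∀ i j, r i j → d i ⊓ d j = ⊥ := by
    intro i j hij
    rw [← le_bot_iff]
    have h1 : d i ≤ ⨆ k : {k // r k j}, b k.1 :=
      (hdle i).trans (le_iSup (fun k : {k // r k j} => b k.1) ⟨i, hij⟩)
    have h2 : d j ≤ (⨆ k : {k // r k j}, b k.1)ᶜ := inf_le_right
    calc d i ⊓ d j ≤ (⨆ k : {k // r k j}, b k.1) ⊓ (⨆ k : {k // r k j}, b k.1)ᶜ :=
          inf_le_inf h1 h2
      _ ≤ ⊥ := by rw [inf_compl_self]
  have hdis' : ∀ i j, i ≠ j → d i ⊓ d j = ⊥ := by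
    intro i j hij
    rcases (hwo.toTrichotomous.rel_or_eq_or_rel_swap : r i j ∨ i = j ∨ r j i) with h | h | h
    · exact hdis i j h
    · exact absurd h hij
    · rw [inf_comm]; exact hdis j i h
  have hle : ∀ i, b i ≤ ⨆ j, d j := by
    intro i
    induction i using hwf.induction with
    | _ i ih =>
      have h1 : (⨆ k : {k // r k i}, b k.1) ≤ ⨆ j, d j := iSup_le fun k => ih k.1 k.2
      calc b i = b i ⊓ ((⨆ k : {k // r k i}, b k.1) ⊔ (⨆ k : {k // r k i}, b k.1)ᶜ) := by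
            rw [sup_compl_eq_top, inf_top_eq]
        _ = (b i ⊓ ⨆ k : {k // r k i}, b k.1) ⊔ d i := inf_sup_left _ _ _
        _ ≤ ⨆ j, d j := sup_le (inf_le_right.trans h1) (le_iSup d i)
  have hcount : Countable {i // d i ≠ ⊥} := by
    refine hL {i // d i ≠ ⊥} (fun i => d i.1) (fun i => i.2) ?_
    intro i j hij
    exact hdis' i.1 j.1 (fun h => hij (Subtype.ext h))
  refine ⟨{i | d i ≠ ⊥}, Set.countable_coe_iff.1 hcount, le_antisymm ?_ ?_⟩
  · refine iSup_le fun i => (hle i).trans (iSup_le fun j => ?_)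
    by_cases hj : d j = ⊥
    · rw [hj]; exact bot_le
    · exact (hdle j).trans (le_iSup₂ (f := fun i (_ : i ∈ {i | d i ≠ ⊥}) => b i) j hj)
  · exact iSup₂_le fun i _ => le_iSup b i

end AN.PkCSUP
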